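import Pool.Agent.P.MP_0340c4_al.Main

set_option autoImplicit false

open Pool.Agent.P.MP_0340c4_al in
theorem Pool.Agent.Results.MP_0340c4_al.CountableInterval.result
    (A : Type) [Finite A] (hA : 3 ≤ Nat.card A) :
    ∃ C : Set (PF A), IsPClone C ∧ C ⊆ Total A ∧
      Cardinal.mk (IStr C) = Cardinal.aleph0 ∧
      ¬ (((ID C).Finite ∧ (IStr C).Finite) ∨
        (Cardinal.mk (ID C) = Cardinal.continuum ∧ Cardinal.mk (IStr C) = Cardinal.continuum)) := by
  classical
  obtain ⟨n, hn⟩ : ∃ n, Nat.card A = n + 3 := ⟨Nat.card A - 3, by omega⟩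
  have e : A ≃ Fin (n + 3) := Finite.equivFinOfCardEq hn
  let : Fintype A := Fintype.ofFinite A
  let : LinearOrder A := LinearOrder.lift' e e.injective
  let : OrderBot A :=
    { bot := e.symm 0
      bot_le := fun a => by
        change e (e.symm 0) ≤ e a
        simp }
  have h0 : (⊥ : A) < e.symm 1 := by
    change e (e.symm 0) < e (e.symm 1)
    simp
  have h1 : e.symm 1 < e.symm 2 := by
    change e (e.symm 1) < e (e.symm 2)
    simp only [Equiv.apply_symm_apply]
    rw [Fin.lt_def]
    simp only [Fin.val_one, Fin.val_two]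
    omega
  have hY := Y_mem (e.symm 1) (k := 2) le_rfl
  have hinf : (IStr (Cl (e.symm 1))).Infinite := by
    refine Set.infinite_of_injective_forall_mem (f := fun k : ℕ => Y (e.symm 1) (2 * k + 3))
      (fun a b hab => ?_) fun k => Y_mem _ (by omega)
    by_contra c
    rcases Nat.lt_or_gt_of_ne c with d | d
    · exact Y_ne h0 h1 (by omega) (by omega) hab
    · exact Y_ne h0 h1 (by omega) (by omega) hab.symm
  have hc : Cardinal.mk (IStr (Cl (e.symm 1))) = Cardinal.aleph0 := by
    have := hinf.to_subtype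
    have := (countable_IStr (e.symm 1)).to_subtype
    exact Cardinal.mk_eq_aleph0 _
  refine ⟨Cl (e.symm 1), ?_, ?_, hc, ?_⟩
  · rw [← hY.2.2]
    refine ⟨fun m j => ⟨hY.1.1 m j, fun x => by simp⟩, fun a m f g hf hg =>
      ⟨hY.1.2 a m f g hf.1 fun j => (hg j).1, fun x => ?_⟩⟩
    have : ∀ j, ∃ y, g j x = some y := fun j => Option.ne_none_iff_exists'.1 ((hg j).2 x)
    choose y hy using this
    change comp f g x ≠ none
    rw [comp_some hy]
    exact hf.2 y
  · rw [← hY.2.2]
    exact Set.inter_subset_right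
  · rintro (h | h)
    · exact hinf h.2
    · exact Cardinal.aleph0_lt_continuum.ne (hc.symm.trans h.2)
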